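import Pool.Agent.H500.HC.Stm

set_option autoImplicit false

/-!
PART C2 of project HC (helper500): characters are determined by the multisets of their values.
-/

namespace Pool.Agent.H738.HC.Chars

open Polynomial

lemma perm_of_card {n : ℕ} {A : Type} [DecidableEq A] (f g : Fin n → A)
    (h : ∀ a, (Finset.univ.filter fun i => f i = a).card =
      (Finset.univ.filter fun i => g i = a).card) : ∃ π : Equiv.Perm (Fin n), ∀ i, f i = g (π i) := by
  have e : ∀ a, Nonempty ({i // f i = a} ≃ {i // g i = a}) := by
    intro a
    refine ⟨Fintype.equivOfCardEq ?_⟩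
    rw [Fintype.card_subtype, Fintype.card_subtype, h a]
  replace e := fun a => Classical.choice (e a)
  refine ⟨(Equiv.sigmaFiberEquiv f).symm.trans ((Equiv.sigmaCongrRight e).trans
    (Equiv.sigmaFiberEquiv g)), fun i => ?_⟩
  exact ((e (f i) ⟨i, rfl⟩).2).symm

lemma cast_inj' {k : Type} [Field k] {n : ℕ} (hk : ∀ p : ℕ, p.Prime → (p : k) = 0 → n < p)
    {a b : ℕ} (ha : a ≤ n) (hb : b ≤ n) (h : (a : k) = b) : a = b := by
  obtain ⟨p, hp⟩ := CharP.exists k
  rcases Nat.eq_zero_or_pos p with h0 | h0
  · subst h0
    have : CharZero k := CharP.charP_to_charZero k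
    exact Nat.cast_injective h
  · have : NeZero p := ⟨h0.ne'⟩
    have hpp : p.Prime := CharP.char_is_prime_of_pos k p |>.out
    have hn := hk p hpp (CharP.cast_eq_zero k p)
    rw [CharP.natCast_eq_natCast k p] at h
    exact Nat.ModEq.eq_of_lt_of_lt h (lt_of_le_of_lt ha hn) (lt_of_le_of_lt hb hn)

theorem main : Pool.Agent.H500.HC.S_Chars := by
  classical
  intro G k _ _ n f g hk h
  have hs : ∀ x, ∑ i, f i x = ∑ i, g i x := by
    intro x
    have h1 := congrArg Polynomial.roots (h x)
    have h2 : ∀ a : Fin n → k, (∏ i, (X - C (a i))).roots = Finset.univ.val.map a := by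
      intro a
      have := Polynomial.roots_multiset_prod_X_sub_C (Finset.univ.val.map a)
      rw [Multiset.map_map] at this
      exact this
    rw [h2, h2] at h1
    have h3 := congrArg Multiset.sum h1
    exact h3
  apply perm_of_card
  have hfib : ∀ (f : Fin n → (G →* k)) (s : Finset (G →* k)), (∀ i, f i ∈ s) →
      ∑ a ∈ s, ((Finset.univ.filter fun i => f i = a).card : k) • (a : G → k) =
        ∑ i, (f i : G → k) := by
    intro f s hfs
    rw [← Finset.sum_fiberwise_of_maps_to (s := Finset.univ) (t := s) (g := f)
      (fun i _ => hfs i) (fun i => (f i : G → k))]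
    refine Finset.sum_congr rfl fun a _ => ?_
    have h4 : ∀ i ∈ Finset.univ.filter (fun i => f i = a), (f i : G → k) = (a : G → k) := by
      intro i hi
      rw [(Finset.mem_filter.1 hi).2]
    rw [Finset.sum_congr rfl h4, Finset.sum_const, ← Nat.cast_smul_eq_nsmul k]
  let s : Finset (G →* k) := Finset.univ.image f ∪ Finset.univ.image g
  have hfs : ∀ i, f i ∈ s := fun i =>
    Finset.mem_union_left _ (Finset.mem_image_of_mem f (Finset.mem_univ i))
  have hgs : ∀ i, g i ∈ s := fun i =>
    Finset.mem_union_right _ (Finset.mem_image_of_mem g (Finset.mem_univ i))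
  have hli := linearIndependent_iff'.1 (linearIndependent_monoidHom G k) s
    (fun a => ((Finset.univ.filter fun i => f i = a).card : k) -
      ((Finset.univ.filter fun i => g i = a).card : k)) (by
      simp only [sub_smul]
      rw [Finset.sum_sub_distrib, hfib f s hfs, hfib g s hgs, sub_eq_zero]
      funext x
      rw [Finset.sum_apply, Finset.sum_apply]
      exact hs x)
  intro a
  by_cases ha : a ∈ s
  · have h5 := hli a ha
    rw [sub_eq_zero] at h5
    refine cast_inj' hk ?_ ?_ h5
    · exact (Finset.card_le_univ _).trans (by simp)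
    · exact (Finset.card_le_univ _).trans (by simp)
  · rw [Finset.filter_false_of_mem, Finset.filter_false_of_mem]
    · intro i _ hi
      exact ha (hi ▸ hgs i)
    · intro i _ hi
      exact ha (hi ▸ hfs i)

end Pool.Agent.H738.HC.Chars

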